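import Mathlib

/-! Definitions for the cut and choose games `U(κ, I, γ)`, normal measures and squares. -/

set_option autoImplicit false

open Ordinal Cardinal Set Order

universe u

namespace Pool.Agent.H40.Cut

/-- The points of the cardinal `κ`: the ordinals below `κ`. -/
abbrev Pt (κ : Cardinal.{u}) : Type (u + 1) := Set.Iio κ.ord

/-- Bounded subsets of `κ`. -/
def Bd (κ : Cardinal.{u}) (X : Set (Pt κ)) : Prop := ∃ b : Pt κ, ∀ x ∈ X, x < b

/-- `I` is a proper ideal on `κ` which contains all bounded sets and is closed under unions of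
fewer than `κ` of its members. -/
structure IsIdeal (κ : Cardinal.{u}) (I : Set (Set (Pt κ))) : Prop where
  proper : (Set.univ : Set (Pt κ)) ∉ I
  down : ∀ X ∈ I, ∀ Y, Y ⊆ X → Y ∈ I
  bdd : ∀ X, Bd κ X → X ∈ I
  union : ∀ ν < κ.ord, ∀ A : Ordinal.{u} → Set (Pt κ), (∀ i < ν, A i ∈ I) →
    {x | ∃ i < ν, x ∈ A i} ∈ I

/-- A strategy for Choose. At stage `ξ` it looks at the sequence `c` of Cut's moves (a move is the
ordered pair of the two pieces) and answers `true` (choose the first piece) or `false` (choose the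
second piece). The answer may only depend on the moves of Cut up to and including stage `ξ`. -/
structure Strategy (κ : Cardinal.{u}) where
  choice : Ordinal.{u} → (Ordinal.{u} → Set (Pt κ) × Set (Pt κ)) → Bool
  causal : ∀ ξ c c', (∀ η ≤ ξ, c η = c' η) → choice ξ c = choice ξ c'

/-- The piece picked by Choose at stage `ξ`. -/
def Strategy.pick {κ : Cardinal.{u}} (σ : Strategy κ)
    (c : Ordinal.{u} → Set (Pt κ) × Set (Pt κ)) (ξ : Ordinal.{u}) : Set (Pt κ) :=
  if σ.choice ξ c = true then (c ξ).1 else (c ξ).2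

/-- The current set at stage `ξ`: the intersection of all earlier choices of Choose. -/
def Strategy.current {κ : Cardinal.{u}} (σ : Strategy κ)
    (c : Ordinal.{u} → Set (Pt κ) × Set (Pt κ)) (ξ : Ordinal.{u}) : Set (Pt κ) :=
  {x | ∀ η < ξ, x ∈ σ.pick c η}

/-- Cut plays by the rules: at each stage he splits the current set into two disjoint pieces. -/
def Legal {κ : Cardinal.{u}} (σ : Strategy κ) (γ : Ordinal.{u})
    (c : Ordinal.{u} → Set (Pt κ) × Set (Pt κ)) : Prop :=
  ∀ ξ < γ, (c ξ).1 ∪ (c ξ).2 = σ.current c ξ ∧ Disjoint (c ξ).1 (c ξ).2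

/-- Choose has a winning strategy in the game `U(κ, I, γ)`. -/
def ChooseWins (κ : Cardinal.{u}) (I : Set (Set (Pt κ))) (γ : Ordinal.{u}) : Prop :=
  ∃ σ : Strategy κ, ∀ c, Legal σ γ c → σ.current c γ ∉ I

/-- `U` is a normal measure on `κ`. -/
structure IsNormalMeasure (κ : Cardinal.{u}) (U : Ultrafilter (Pt κ)) : Prop where
  nonprincipal : ∀ x, {x} ∉ U
  complete : ∀ ν < κ.ord, ∀ A : Ordinal.{u} → Set (Pt κ), (∀ i < ν, A i ∈ U) →
    {x | ∀ i < ν, x ∈ A i} ∈ U
  normal : ∀ f : Pt κ → Pt κ, {x | f x < x} ∈ U → ∃ y, {x | f x = y} ∈ U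

/-- `δ` is a limit point of the set of ordinals `A`. -/
def LimPt (A : Set Ordinal.{u}) (δ : Ordinal.{u}) : Prop :=
  δ ≠ 0 ∧ ∀ ξ < δ, ∃ ε ∈ A, ξ < ε ∧ ε < δ

/-- `C` is a `□_μ`-sequence: for every limit ordinal `β < μ⁺` the set `C β` is closed and unbounded
in `β`, has order type at most `μ`, and `C δ = C β ∩ δ` for all limit points `δ` of `C β`
below `β`. -/
structure IsSquareSeq (μ : Cardinal.{u}) (C : Ordinal.{u} → Set Ordinal.{u}) : Prop where
  sub : ∀ β < (succ μ).ord, IsSuccLimit β → ∀ ε ∈ C β, ε < β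
  unb : ∀ β < (succ μ).ord, IsSuccLimit β → ∀ δ < β, ∃ ε ∈ C β, δ < ε
  closed : ∀ β < (succ μ).ord, IsSuccLimit β → ∀ δ < β, LimPt (C β) δ → δ ∈ C β
  otp : ∀ β < (succ μ).ord, IsSuccLimit β → typeLT (C β) ≤ Ordinal.lift.{u + 1} μ.ord
  coh : ∀ β < (succ μ).ord, IsSuccLimit β → ∀ δ < β, LimPt (C β) δ → C δ = C β ∩ Set.Iio δ

/-- Jensen's square principle `□_μ`. -/
def Square (μ : Cardinal.{u}) : Prop := ∃ C, IsSquareSeq μ C

end Pool.Agent.H40.Cut
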