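import Mathlib
import Pool.Agent.H40.Cut.Defs

/-!
# Cut and choose games: Choose's winning strategies can depend on the ideal

`κ` is a regular uncountable cardinal with a normal measure `U`. From one coherent sequence
`□_{|α|}` for each of `U`-many `α < κ` we get a proper `<κ`-closed ideal `J ⊇ bd_κ`, essentially
`J = {X : for U-almost all α the section X_α is bounded in α⁺}`, such that Choose has no winning
strategy in `U(κ, J, γ)` for any limit ordinal `γ < κ`; with the measure he wins `U(κ, bd_κ, γ)`.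

Idea. A winning strategy gives a tree of finite plays all of whose branches have `J`-positive
intersections. By well-foundedness there is a condition `l1` and a minimal function `h` lying above
all functions of the first coordinate. The clubs `C^α_{h(x)}` of the square sequences are generic
threads. Interleaving two plays shows that all conditions decide all initial segments of the
thread in the same way, so in the product of the `α⁺` modulo `U` there is an unbounded set on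
which the square sequences cohere. The order types on it are bounded by `α` and strictly
increasing, while the product is `κ⁺`-directed: a contradiction.
-/

set_option autoImplicit false

open Ordinal Cardinal Set Order

universe u

namespace Pool.Agent.H40.Cut

/-! ### Runs of the game of length `ω` -/

section runs

variable {κ : Cardinal.{u}} (σ : Strategy κ)

lemma current_congr {c c' : Ordinal.{u} → Set (Pt κ) × Set (Pt κ)} {ξ : Ordinal.{u}}
    (h : ∀ η < ξ, c η = c' η) : σ.current c ξ = σ.current c' ξ := by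
  ext x
  simp only [Strategy.current, mem_ofPred_eq]
  refine forall₂_congr fun η hη => ?_
  have h1 : σ.choice η c = σ.choice η c' := σ.causal _ _ _ fun ζ hζ => h ζ (hζ.trans_lt hη)
  simp only [Strategy.pick, h1, h η hη]

/-- Cut splits the current set along the given sets `A ξ`. -/
noncomputable def mv (A : Ordinal.{u} → Set (Pt κ)) : Ordinal.{u} → Set (Pt κ) × Set (Pt κ) :=
  WellFounded.fix (Ordinal.lt_wf) (fun ξ f =>
    (σ.current (fun η => if h : η < ξ then f η h else (∅, ∅)) ξ ∩ A ξ,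
     σ.current (fun η => if h : η < ξ then f η h else (∅, ∅)) ξ \ A ξ))

lemma mv_eq (A : Ordinal.{u} → Set (Pt κ)) (ξ : Ordinal.{u}) :
    mv σ A ξ = (σ.current (mv σ A) ξ ∩ A ξ, σ.current (mv σ A) ξ \ A ξ) := by
  have h : σ.current (fun η => if _ : η < ξ then mv σ A η else (∅, ∅)) ξ
      = σ.current (mv σ A) ξ := current_congr σ fun η hη => by simp [hη]
  rw [← h]
  exact WellFounded.fix_eq _ _ _

lemma mv_congr {A A' : Ordinal.{u} → Set (Pt κ)} {ξ : Ordinal.{u}}
    (h : ∀ η ≤ ξ, A η = A' η) : mv σ A ξ = mv σ A' ξ := by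
  induction ξ using WellFoundedLT.induction with
  | _ ξ ih =>
    have h1 : σ.current (mv σ A) ξ = σ.current (mv σ A') ξ :=
      current_congr σ fun η hη => ih η hη fun ζ hζ => h ζ (hζ.trans hη.le)
    rw [mv_eq, mv_eq σ A', h1, h ξ le_rfl]

lemma mv_legal (A : Ordinal.{u} → Set (Pt κ)) (γ : Ordinal.{u}) : Legal σ γ (mv σ A) := by
  intro ξ _
  rw [mv_eq]
  exact ⟨inter_union_sdiff _ _, disjoint_sdiff_inter.symm⟩

/-- extend a sequence of sets to all ordinals -/
noncomputable def ordSeq (B : ℕ → Set (Pt κ)) (ξ : Ordinal.{u}) : Set (Pt κ) :=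
  open Classical in if h : ∃ n : ℕ, ξ = n then B h.choose else Set.univ

lemma ordSeq_nat (B : ℕ → Set (Pt κ)) (n : ℕ) : ordSeq B (n : Ordinal.{u}) = B n := by
  have h : ∃ m : ℕ, (n : Ordinal.{u}) = m := ⟨n, rfl⟩
  rw [ordSeq, dif_pos h]
  congr 1
  exact_mod_cast h.choose_spec.symm

/-- the current set after Cut has cut along the sets of the list -/
noncomputable def FS (l : List (Set (Pt κ))) : Set (Pt κ) :=
  σ.current (mv σ (ordSeq fun n => l.getD n Set.univ)) (l.length : Ordinal.{u})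

lemma cur_congr {B B' : ℕ → Set (Pt κ)} {n : ℕ} (h : ∀ k < n, B k = B' k) :
    σ.current (mv σ (ordSeq B)) (n : Ordinal.{u}) =
      σ.current (mv σ (ordSeq B')) (n : Ordinal.{u}) := by
  apply current_congr
  intro η hη
  apply mv_congr
  intro ζ hζ
  obtain ⟨k, rfl⟩ := Ordinal.lt_omega0.1 ((hζ.trans_lt hη).trans (Ordinal.natCast_lt_omega0 n))
  rw [ordSeq_nat, ordSeq_nat]
  exact h k (by exact_mod_cast hζ.trans_lt hη)

lemma FS_map (B : ℕ → Set (Pt κ)) (n : ℕ) :
    FS σ ((List.range n).map B) = σ.current (mv σ (ordSeq B)) (n : Ordinal.{u}) := by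
  rw [FS]
  simp only [List.length_map, List.length_range]
  apply cur_congr
  intro k hk
  simp [List.getD_eq_getElem?_getD, hk]

lemma cur_succ (B : ℕ → Set (Pt κ)) (n : ℕ) :
    σ.current (mv σ (ordSeq B)) ((n + 1 : ℕ) : Ordinal.{u}) =
        σ.current (mv σ (ordSeq B)) (n : Ordinal.{u}) ∩ B n ∨
      σ.current (mv σ (ordSeq B)) ((n + 1 : ℕ) : Ordinal.{u}) =
        σ.current (mv σ (ordSeq B)) (n : Ordinal.{u}) \ B n := by
  have h1 : σ.current (mv σ (ordSeq B)) ((n + 1 : ℕ) : Ordinal.{u}) =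
      σ.current (mv σ (ordSeq B)) (n : Ordinal.{u}) ∩ σ.pick (mv σ (ordSeq B)) n := by
    ext x
    simp only [Strategy.current, mem_inter_iff, mem_ofPred_eq]
    constructor
    · intro h
      refine ⟨fun η hη => h η (hη.trans (by exact_mod_cast Nat.lt_succ_self n)),
        h n (by exact_mod_cast Nat.lt_succ_self n)⟩
    · rintro ⟨h, h'⟩ η hη
      have : η ≤ (n : Ordinal.{u}) := by
        rw [Nat.cast_succ] at hη
        exact Order.lt_add_one_iff.1 hη
      rcases this.lt_or_eq with h2 | h2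
      · exact h η h2
      · rw [h2]; exact h'
  rw [h1]
  have h2 := mv_eq σ (ordSeq B) n
  rw [ordSeq_nat] at h2
  rw [Strategy.pick, h2]
  split_ifs
  · left
    ext x; simp only [mem_inter_iff]; tauto
  · right
    ext x; simp only [mem_inter_iff, mem_sdiff]; tauto

/-- A winning strategy in the game of length `ω`, in terms of finite sequences of cuts. -/
structure FinStrat {K : Type*} (J : Set (Set K)) (F : List (Set K) → Set K) : Prop where
  step : ∀ l A, F (l ++ [A]) = F l ∩ A ∨ F (l ++ [A]) = F l \ A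
  win : ∀ B : ℕ → Set K, {x | ∀ n, x ∈ F ((List.range n).map B)} ∉ J

lemma finStrat {J : Set (Set (Pt κ))} (hJ : ∀ X ∈ J, ∀ Y, Y ⊆ X → Y ∈ J) {γ : Ordinal.{u}}
    (hγ : IsSuccLimit γ) (h : ∀ c, Legal σ γ c → σ.current c γ ∉ J) : FinStrat J (FS σ) where
  step := by
    intro l A
    have h1 : FS σ l = σ.current (mv σ (ordSeq fun n => (l ++ [A]).getD n Set.univ))
        (l.length : Ordinal.{u}) := by
      rw [FS]
      apply cur_congr
      intro k hk
      simp [List.getD_eq_getElem?_getD, List.getElem?_append_left hk]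
    have h2 := cur_succ σ (fun n => (l ++ [A]).getD n Set.univ) l.length
    rw [← h1] at h2
    have h3 : (l ++ [A]).getD l.length Set.univ = A := by simp [List.getD_eq_getElem?_getD]
    simp only [h3] at h2
    rw [FS]
    simpa using h2
  win := by
    intro B hB
    apply h (mv σ (ordSeq B)) (mv_legal σ _ _)
    refine hJ _ hB _ ?_
    intro x hx n
    rw [FS_map]
    intro η hη
    exact hx η (hη.trans (hγ.natCast_lt n))

end runs

/-! ### Finite strategies -/

section fin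

variable {K : Type*} {J : Set (Set K)} {F : List (Set K) → Set K}

lemma FinStrat.cut (h : FinStrat J F) (l : List (Set K)) (A : Set K) :
    F (l ++ [A]) ⊆ A ∨ F (l ++ [A]) ⊆ Aᶜ := by
  rcases h.step l A with h1 | h1
  · left; rw [h1]; exact inter_subset_right
  · right; rw [h1]; exact fun x hx => hx.2

lemma FinStrat.mono (h : FinStrat J F) {l l' : List (Set K)} (hl : l <+: l') : F l' ⊆ F l := by
  obtain ⟨t, rfl⟩ := hl
  induction t using List.reverseRecOn with
  | nil => simp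
  | append_singleton t A ih =>
    rw [← List.append_assoc]
    rcases h.step (l ++ t) A with h1 | h1
    · rw [h1]; exact inter_subset_left.trans ih
    · rw [h1]; exact sdiff_subset.trans ih

lemma prefix_seq {m : ℕ → List (Set K)} (hm : ∀ n, m n <+: m (n + 1)) {i j : ℕ} (hij : i ≤ j) :
    m i <+: m j := by
  induction j, hij using Nat.le_induction with
  | base => exact List.prefix_refl _
  | succ j _ ih => exact ih.trans (hm j)

lemma FinStrat.win_seq (h : FinStrat J F) (hJ : ∀ X ∈ J, ∀ Y, Y ⊆ X → Y ∈ J)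
    (m : ℕ → List (Set K)) (hm : ∀ n, m n <+: m (n + 1)) : {x | ∀ n, x ∈ F (m n)} ∉ J := by
  classical
  intro hX
  let B : ℕ → Set K := fun k =>
    if h : ∃ n, k < (m n).length then (m h.choose)[k]'h.choose_spec else Set.univ
  apply h.win B
  refine hJ _ hX _ ?_
  intro x hx n
  have h1 : (List.range (m n).length).map B = m n := by
    apply List.ext_getElem
    · simp
    · intro k h1 h2
      simp only [List.getElem_map, List.getElem_range]
      have h3 : ∃ n, k < (m n).length := ⟨n, h2⟩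
      simp only [B, dif_pos h3]
      rcases le_total h3.choose n with h4 | h4
      · exact (prefix_seq hm h4).getElem h3.choose_spec
      · exact ((prefix_seq hm h4).getElem h2).symm
  have := hx (m n).length
  rwa [h1] at this

lemma FinStrat.notJ (h : FinStrat J F) (hJ : ∀ X ∈ J, ∀ Y, Y ⊆ X → Y ∈ J) (l : List (Set K)) :
    F l ∉ J := by
  have := h.win_seq hJ (fun _ => l) (fun _ => List.prefix_refl _)
  simpa using this

end fin

/-! ### The ideal `J` -/

/-- the successor cardinal of `α`, as an ordinal -/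
noncomputable def s (α : Ordinal.{u}) : Ordinal.{u} := (succ (max ℵ₀ α.card)).ord

lemma s_reg (α : Ordinal.{u}) : (succ (max ℵ₀ α.card)).IsRegular :=
  isRegular_succ (le_max_left _ _)

lemma s_lim (α : Ordinal.{u}) : IsSuccLimit (s α) :=
  Cardinal.isSuccLimit_ord ((s_reg α).aleph0_le)

lemma succ_lt_s {α x : Ordinal.{u}} (h : x < s α) : x + 1 < s α := (s_lim α).add_one_lt h

lemma sup_bound {c : Cardinal.{u}} (hc : c.IsRegular) {ν : Ordinal.{u}} (hν : ν.card < c)
    (f : Ordinal.{u} → Ordinal.{u}) (hf : ∀ i < ν, f i < c.ord) :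
    ∃ g < c.ord, ∀ i < ν, f i ≤ g := by
  refine ⟨⨆ i : ν.ToType, f (typein (α := ν.ToType) (· < ·) i), ?_, ?_⟩
  · apply Ordinal.iSup_lt_of_lt_cof
    · rw [hc.cof_ord, mk_toType]; exact hν
    · intro i; exact hf _ (typein_lt_self i)
  · intro i hi
    obtain ⟨t, ht⟩ := typein_surj (α := ν.ToType) (· < ·) (o := i) (by simpa using hi)
    rw [← ht]
    exact Ordinal.le_iSup (fun i : ν.ToType => f (typein (α := ν.ToType) (· < ·) i)) t

lemma sup_s {α ν : Ordinal.{u}} (hν : ν ≤ α) (f : Ordinal.{u} → Ordinal.{u})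
    (hf : ∀ i < ν, f i < s α) : ∃ g < s α, ∀ i < ν, f i ≤ g := by
  apply sup_bound (s_reg α) _ f hf
  exact Order.lt_succ_iff.2 ((Ordinal.card_le_card hν).trans (le_max_right _ _))

lemma sup_nat {α : Ordinal.{u}} (f : ℕ → Ordinal.{u}) (hf : ∀ n, f n < s α) :
    ⨆ n, f n < s α := by
  have : ⨆ n : ULift.{u} ℕ, f n.down < s α := by
    apply Ordinal.iSup_lt_of_lt_cof
    · rw [s, (s_reg α).cof_ord]
      simp only [mk_uLift, mk_nat, lift_aleph0]
      exact Order.lt_succ_iff.2 (le_max_left _ _)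
    · intro i; exact hf _
  refine lt_of_le_of_lt ?_ this
  apply Ordinal.iSup_le
  intro n
  exact Ordinal.le_iSup (fun n : ULift.{u} ℕ => f n.down) ⟨n⟩

section ideal

variable {κ : Cardinal.{u}}

lemma final {U : Ultrafilter (Pt κ)} (hU : IsNormalMeasure κ U) (hκ : ℵ₀ ≤ κ) (b : Pt κ) :
    {x : Pt κ | b < x} ∈ U := by
  have hb : b.1 + 1 < κ.ord := (Cardinal.isSuccLimit_ord hκ).add_one_lt b.2
  have := hU.complete (b.1 + 1) hb (fun i => {x | x.1 ≠ i}) (by
    intro i hi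
    have h1 := hU.nonprincipal ⟨i, hi.trans hb⟩
    rw [← Ultrafilter.compl_mem_iff_notMem] at h1
    refine Filter.mem_of_superset h1 ?_
    intro x hx hx'
    exact hx (Subtype.ext hx'))
  refine Filter.mem_of_superset this ?_
  intro x hx
  simp only [mem_ofPred_eq] at hx ⊢
  by_contra hcon
  exact hx x.1 (Order.lt_add_one_iff.2 (by simpa using hcon)) rfl

/-- The ideal `J`. -/
def JJ (U : Ultrafilter (Pt κ)) (e : Pt κ ≃ Pt κ × Pt κ) : Set (Set (Pt κ)) :=
  {X | {α : Pt κ | ∃ g < s α.1, ∀ x ∈ X, (e x).1 = α → (e x).2.1 < s α.1 → (e x).2.1 ≤ g} ∈ U}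

lemma s_le (hκ : ℵ₀ < κ) (α : Pt κ) : s α.1 ≤ κ.ord := by
  apply Cardinal.ord_le_ord.2
  apply Order.succ_le_of_lt
  exact max_lt hκ (Cardinal.lt_ord.1 α.2)

lemma s_pos (α : Ordinal.{u}) : 0 < s α := (s_lim α).bot_lt

lemma JJ_ideal {U : Ultrafilter (Pt κ)} (hU : IsNormalMeasure κ U) (hκ : ℵ₀ < κ)
    (hreg : κ.IsRegular) (e : Pt κ ≃ Pt κ × Pt κ) : IsIdeal κ (JJ U e) where
  proper := by
    intro h
    obtain ⟨α, g, hg, h⟩ := Ultrafilter.nonempty_of_mem h
    have h1 : g + 1 < s α.1 := succ_lt_s hg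
    have := h (e.symm (α, ⟨g + 1, h1.trans_le (s_le hκ α)⟩)) (mem_univ _) (by simp) (by simpa)
    simp at this
  down := by
    intro X hX Y hY
    refine Filter.mem_of_superset hX ?_
    rintro α ⟨g, hg, h⟩
    exact ⟨g, hg, fun x hx => h x (hY hx)⟩
  bdd := by
    rintro X ⟨b, hb⟩
    obtain ⟨g, hg, h⟩ := sup_bound hreg (ν := b.1) (Cardinal.lt_ord.1 b.2)
      (fun i => if h : i < κ.ord then (e ⟨i, h⟩).1.1 else 0) (by
        intro i hi
        rw [dif_pos (hi.trans b.2)]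
        exact (e _).1.2)
    refine Filter.mem_of_superset (final hU hκ.le ⟨g, hg⟩) ?_
    intro α hα
    refine ⟨0, s_pos _, ?_⟩
    intro x hx hxα
    have h1 := h x.1 (hb x hx)
    rw [dif_pos (show x.1 < κ.ord from x.2)] at h1
    subst hxα
    exact absurd h1 (not_le.2 hα)
  union := by
    intro ν hν A hA
    have h1 := hU.complete ν hν _ hA
    have h2 := final hU hκ.le ⟨ν, hν⟩
    refine Filter.mem_of_superset (Filter.inter_mem h1 h2) ?_
    rintro α ⟨h3, h4⟩
    choose! g hg h5 using h3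
    obtain ⟨g', hg', h6⟩ := sup_s (α := α.1) (ν := ν) (le_of_lt h4) g hg
    refine ⟨g', hg', ?_⟩
    rintro x ⟨i, hi, hx⟩ hxα hxs
    exact (h5 i hi x hx hxα hxs).trans (h6 i hi)

lemma pos' {U : Ultrafilter (Pt κ)} {e : Pt κ ≃ Pt κ × Pt κ} {X : Set (Pt κ)}
    (hX : X ∉ JJ U e) : {α | ∃ x ∈ X, (e x).1 = α} ∈ U := by
  have h : {α : Pt κ | ∃ g < s α.1, ∀ x ∈ X, (e x).1 = α → (e x).2.1 < s α.1 →
    (e x).2.1 ≤ g} ∉ U := hX
  rw [← Ultrafilter.compl_mem_iff_notMem] at h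
  refine Filter.mem_of_superset h ?_
  intro α hα
  by_contra hcon
  apply hα
  exact ⟨0, s_pos _, fun x hx hxα => absurd ⟨x, hx, hxα⟩ hcon⟩

lemma nonempty_of_notJ {U : Ultrafilter (Pt κ)} {e : Pt κ ≃ Pt κ × Pt κ} {X : Set (Pt κ)}
    (hX : X ∉ JJ U e) : X.Nonempty := by
  obtain ⟨α, x, hx, -⟩ := Ultrafilter.nonempty_of_mem (pos' hX)
  exact ⟨x, hx⟩

end ideal

/-! ### Order types -/

lemma type_lt {A B : Set Ordinal.{u}} (hAB : A ⊆ B) {ε : Ordinal.{u}} (hε : ε ∈ B)
    (hA : ∀ a ∈ A, a < ε) : typeLT A < typeLT B := by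
  have h1 : typeLT A ≤ typein (α := B) (· < ·) ⟨ε, hε⟩ := by
    rw [← type_subrel]
    apply Ordinal.type_le_iff'.2
    refine ⟨⟨⟨fun a => ⟨⟨a.1, hAB a.2⟩, hA _ a.2⟩, ?_⟩, ?_⟩⟩
    · intro a b hab
      simp only [Subtype.mk.injEq] at hab
      exact Subtype.ext hab
    · intro a b
      rfl
  exact h1.trans_lt (typein_lt_type _ _)

lemma LimPt.isSuccLimit {A : Set Ordinal.{u}} {δ : Ordinal.{u}} (h : LimPt A δ) :
    IsSuccLimit δ := by
  rw [Order.isSuccLimit_iff, Order.isSuccPrelimit_iff_succ_lt]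
  refine ⟨by simpa using h.1, fun ξ hξ => ?_⟩
  obtain ⟨ε, _, h1, h2⟩ := h.2 ξ hξ
  exact (Order.succ_le_of_lt h1).trans_lt h2

/-! ### The main argument -/

section main

variable {κ : Cardinal.{u}} {U : Ultrafilter (Pt κ)} {e : Pt κ ≃ Pt κ × Pt κ}
  {F : List (Set (Pt κ)) → Set (Pt κ)}

/-- functions in the product of the `s α` -/
def GG (g : Pt κ → Ordinal.{u}) : Prop := ∀ α, g α < s α.1

/-- `h` is, below the condition `l`, above all functions of the first coordinate. -/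
def Valid (e : Pt κ ≃ Pt κ × Pt κ) (F : List (Set (Pt κ)) → Set (Pt κ)) (l : List (Set (Pt κ)))
    (h : Pt κ → Ordinal.{u}) : Prop :=
  (∀ x ∈ F l, h x < s (e x).1.1) ∧
    ∀ g, GG g → ∀ l', l <+: l' → ¬ F l' ⊆ {x | h x ≤ g (e x).1}

lemma Valid.mono {l l' : List (Set (Pt κ))} {h : Pt κ → Ordinal.{u}}
    (hF : FinStrat (JJ U e) F) (hv : Valid e F l h) (hl : l <+: l') : Valid e F l' h :=
  ⟨fun x hx => hv.1 x (hF.mono hl hx), fun g hg l'' hl' => hv.2 g hg l'' (hl.trans hl')⟩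

/-- the complement of a set of the ideal is always chosen -/
lemma cut_of_mem {J : Set (Set (Pt κ))} (hJ : ∀ X ∈ J, ∀ Y, Y ⊆ X → Y ∈ J)
    (hF : FinStrat J F) {A : Set (Pt κ)} (hA : Aᶜ ∈ J) (l : List (Set (Pt κ))) :
    F (l ++ [A]) ⊆ A := by
  rcases hF.cut l A with h | h
  · exact h
  · exact absurd (hJ _ hA _ h) (hF.notJ hJ _)

lemma GG_zero : GG (fun _ : Pt κ => (0 : Ordinal.{u})) := fun α => s_pos α.1

lemma GG_add {g : Pt κ → Ordinal.{u}} (hg : GG g) : GG (fun α => g α + 1) :=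
  fun α => succ_lt_s (hg α)

lemma valid_start (hJ : IsIdeal κ (JJ U e)) (hF : FinStrat (JJ U e) F) :
    ∃ l, Valid e F l (fun x => (e x).2.1) := by
  refine ⟨[] ++ [{x | (e x).2.1 < s (e x).1.1}], ?_, ?_⟩
  · have h1 : {x : Pt κ | (e x).2.1 < s (e x).1.1}ᶜ ∈ JJ U e := by
      refine Filter.mem_of_superset Filter.univ_mem ?_
      intro α _
      refine ⟨0, s_pos _, ?_⟩
      intro x hx hxα hxs
      subst hxα
      exact absurd hxs hx
    exact fun x hx => cut_of_mem hJ.down hF h1 [] hx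
  · intro g hg l' _ hsub
    apply hF.notJ hJ.down l'
    refine Filter.mem_of_superset Filter.univ_mem ?_
    intro α _
    refine ⟨g α, hg α, ?_⟩
    intro x hx hxα _
    subst hxα
    exact hsub hx

lemma exists_min (hJ : IsIdeal κ (JJ U e)) (hF : FinStrat (JJ U e) F) :
    ∃ l h, Valid e F l h ∧ ∀ l', l <+: l' → ∀ h', (∀ x ∈ F l', h' x < h x) →
      ¬ Valid e F l' h' := by
  by_contra hcon
  push Not at hcon
  obtain ⟨l0, hl0⟩ := valid_start hJ hF
  let T := {p : List (Set (Pt κ)) × (Pt κ → Ordinal.{u}) // Valid e F p.1 p.2}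
  have hnext : ∀ t : T, ∃ t' : T, t.1.1 <+: t'.1.1 ∧ ∀ x ∈ F t'.1.1, t'.1.2 x < t.1.2 x := by
    intro t
    obtain ⟨l', h1, h', h2, h3⟩ := hcon t.1.1 t.1.2 t.2
    exact ⟨⟨(l', h'), h3⟩, h1, h2⟩
  choose next hn1 hn2 using hnext
  let m : ℕ → T := fun n => next^[n] ⟨(l0, _), hl0⟩
  have hm : ∀ n, m (n + 1) = next (m n) := fun n => Function.iterate_succ_apply' _ _ _
  have h1 := hF.win_seq hJ.down (fun n => (m n).1.1) (fun n => by rw [hm]; exact hn1 _)
  obtain ⟨x, hx⟩ := nonempty_of_notJ h1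
  have h3 : StrictAnti (fun n => (m n).1.2 x) := by
    apply strictAnti_nat_of_succ_lt
    intro n
    have := hn2 (m n) x
    rw [← hm] at this
    exact this (hx (n + 1))
  exact not_strictAnti_of_wellFoundedLT _ h3


/-- the situation of the main argument -/
structure Sit (U : Ultrafilter (Pt κ)) (e : Pt κ ≃ Pt κ × Pt κ)
    (F : List (Set (Pt κ)) → Set (Pt κ)) (C : Pt κ → Ordinal.{u} → Set Ordinal.{u})
    (l1 : List (Set (Pt κ))) (h : Pt κ → Ordinal.{u}) : Prop where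
  hJ : IsIdeal κ (JJ U e)
  hF : FinStrat (JJ U e) F
  valid : Valid e F l1 h
  minim : ∀ l', l1 <+: l' → ∀ h', (∀ x ∈ F l', h' x < h x) → ¬ Valid e F l' h'
  lim : ∀ x ∈ F l1, IsSuccLimit (h x)
  sq : ∀ x ∈ F l1, IsSquareSeq (e x).1.1.card (C (e x).1)
  om : ∀ x ∈ F l1, s (e x).1.1 = (succ (e x).1.1.card).ord

lemma exists_sit (hJ : IsIdeal κ (JJ U e)) (hF : FinStrat (JJ U e) F)
    {C : Pt κ → Ordinal.{u} → Set Ordinal.{u}}
    (hC : {α : Pt κ | IsSquareSeq α.1.card (C α)} ∈ U) (ho : {α : Pt κ | ω ≤ α.1} ∈ U) :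
    ∃ l1 h, Sit U e F C l1 h := by
  obtain ⟨l0, h, hv, hmin⟩ := exists_min hJ hF
  have hA : ∀ A : Set (Pt κ), A ∈ U → {x | (e x).1 ∈ A}ᶜ ∈ JJ U e := by
    intro A hA
    refine Filter.mem_of_superset hA ?_
    intro α hα
    refine ⟨0, s_pos _, ?_⟩
    intro x hx hxα _
    subst hxα
    exact absurd hα hx
  let Z1 : Set (Pt κ) := {x | (e x).1 ∈ {α : Pt κ | IsSquareSeq α.1.card (C α)}}
  let Z2 : Set (Pt κ) := {x | (e x).1 ∈ {α : Pt κ | ω ≤ α.1}}
  let Z3 : Set (Pt κ) := {x | IsSuccLimit (h x)}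
  have hl3 : l0 <+: l0 ++ [Z1] ++ [Z2] ++ [Z3] := by
    rw [List.append_assoc, List.append_assoc]; exact List.prefix_append _ _
  refine ⟨l0 ++ [Z1] ++ [Z2] ++ [Z3], h, hJ, hF, hv.mono hF hl3,
    fun l' hl' => hmin l' (hl3.trans hl'), ?_, ?_, ?_⟩
  · rcases hF.cut (l0 ++ [Z1] ++ [Z2]) Z3 with h1 | h1
    · exact h1
    · exfalso
      set l3 := l0 ++ [Z1] ++ [Z2] ++ [Z3] with hl3def
      have h2 : F (l3 ++ [{x | h x ≠ 0}]) ⊆ {x | h x ≠ 0} := by
        rcases hF.cut l3 {x | h x ≠ 0} with h2 | h2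
        · exact h2
        · exfalso
          refine hv.2 _ GG_zero _ (hl3.trans (List.prefix_append _ _)) (h2.trans ?_)
          intro x hx
          simp only [mem_compl_iff, mem_ofPred_eq, not_not] at hx ⊢
          exact hx.le
      set l4 := l3 ++ [{x | h x ≠ 0}] with hl4def
      have hl34 : l3 <+: l4 := List.prefix_append _ _
      have h3 : ∀ x ∈ F l4, ∃ y, h x = y + 1 := by
        intro x hx
        have h4 : ¬ IsSuccLimit (h x) := h1 (hF.mono hl34 hx)
        have h5 : h x ≠ 0 := h2 hx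
        rcases Ordinal.zero_or_succ_or_isSuccLimit (h x) with h6 | ⟨y, h6⟩ | h6
        · exact absurd h6 h5
        · exact ⟨y, by simpa using h6.symm⟩
        · exact absurd h6 h4
      choose! h' hh' using h3
      have h4 : ¬ Valid e F l4 h' := by
        apply hmin l4 (hl3.trans hl34)
        intro x hx
        rw [hh' x hx]
        exact Order.lt_add_one_iff.2 le_rfl
      apply h4
      refine ⟨?_, ?_⟩
      · intro x hx
        refine lt_of_le_of_lt ?_ (hv.1 x (hF.mono (hl3.trans hl34) hx))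
        rw [hh' x hx]
        exact (Order.lt_add_one_iff.2 le_rfl).le
      · intro g hg l' hl' hsub
        refine hv.2 _ (GG_add hg) l' ((hl3.trans hl34).trans hl') ?_
        intro x hx
        have h5 : h' x ≤ g (e x).1 := hsub hx
        simp only [mem_ofPred_eq]
        rw [hh' x (hF.mono hl' hx)]
        gcongr
  · intro x hx
    have h1 : F (l0 ++ [Z1]) ⊆ Z1 := cut_of_mem hJ.down hF (hA _ hC) l0
    apply h1
    refine hF.mono ?_ hx
    rw [List.append_assoc]; exact List.prefix_append _ _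
  · intro x hx
    have h1 : F (l0 ++ [Z1] ++ [Z2]) ⊆ Z2 := cut_of_mem hJ.down hF (hA _ ho) _
    have h2 : ω ≤ (e x).1.1 := h1 (hF.mono (List.prefix_append _ _) hx)
    rw [s, max_eq_right]
    rw [← Ordinal.card_omega0]
    exact Ordinal.card_le_card h2

namespace Sit

variable {C : Pt κ → Ordinal.{u} → Set Ordinal.{u}} {l1 : List (Set (Pt κ))}
  {h : Pt κ → Ordinal.{u}}

lemma lt' (S : Sit U e F C l1 h) {x : Pt κ} (hx : x ∈ F l1) : h x < (succ (e x).1.1.card).ord := by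
  rw [← S.om x hx]; exact S.valid.1 x hx

/-- a function which is smaller than `h` is bounded by a function of the first coordinate -/
lemma bound (S : Sit U e F C l1 h) {l' : List (Set (Pt κ))} (hl : l1 <+: l')
    (h' : Pt κ → Ordinal.{u}) (hh : ∀ x ∈ F l', h' x < h x) :
    ∃ g, GG g ∧ ∃ l'', l' <+: l'' ∧ F l'' ⊆ {x | h' x ≤ g (e x).1} := by
  have h1 := S.minim l' hl h' hh
  rw [Valid] at h1
  push Not at h1
  exact h1 fun x hx => (hh x hx).trans (S.valid.1 x (S.hF.mono hl hx))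

lemma above (S : Sit U e F C l1 h) {l : List (Set (Pt κ))} (hl : l1 <+: l)
    {g : Pt κ → Ordinal.{u}} (hg : GG g) :
    F (l ++ [{x | g (e x).1 < h x}]) ⊆ {x | g (e x).1 < h x} := by
  rcases S.hF.cut l {x | g (e x).1 < h x} with h1 | h1
  · exact h1
  · exfalso
    refine S.valid.2 g hg _ (hl.trans (List.prefix_append _ _)) (h1.trans ?_)
    intro x hx
    simpa using hx

/-- the thread meets the interval `(g, g']` -/
def Z (e : Pt κ ≃ Pt κ × Pt κ) (C : Pt κ → Ordinal.{u} → Set Ordinal.{u})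
    (h : Pt κ → Ordinal.{u}) (g g' : Pt κ → Ordinal.{u}) : Set (Pt κ) :=
  {x | ∃ ε ∈ C (e x).1 (h x), g (e x).1 < ε ∧ ε ≤ g' (e x).1}

lemma step1 (S : Sit U e F C l1 h) {l : List (Set (Pt κ))} (hl : l1 <+: l)
    {g : Pt κ → Ordinal.{u}} (hg : GG g) :
    ∃ l', l <+: l' ∧ ∃ g', GG g' ∧ (∀ α, g α ≤ g' α) ∧ F l' ⊆ Z e C h g g' := by
  set l2 := l ++ [{x | g (e x).1 < h x}] with hl2
  have h2 : F l2 ⊆ {x | g (e x).1 < h x} := S.above hl hg
  have hl12 : l1 <+: l2 := hl.trans (List.prefix_append _ _)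
  have h3 : ∀ x ∈ F l2, ∃ ε ∈ C (e x).1 (h x), g (e x).1 < ε := by
    intro x hx
    have hx1 := S.hF.mono hl12 hx
    exact (S.sq x hx1).unb _ (S.lt' hx1) (S.lim x hx1) _ (h2 hx)
  choose! h' h3a h3b using h3
  obtain ⟨g', hg', l', hl', h4⟩ := S.bound hl12 h' (by
    intro x hx
    have hx1 := S.hF.mono hl12 hx
    exact (S.sq x hx1).sub _ (S.lt' hx1) (S.lim x hx1) _ (h3a x hx))
  refine ⟨l', (List.prefix_append _ _).trans hl', fun α => max (g α) (g' α),
    fun α => max_lt (hg α) (hg' α), fun α => le_max_left _ _, ?_⟩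
  intro x hx
  have hx2 := S.hF.mono hl' hx
  exact ⟨h' x, h3a x hx2, h3b x hx2, (h4 hx).trans (le_max_right _ _)⟩

lemma thread (S : Sit U e F C l1 h) {x : Pt κ} (hx : x ∈ F l1) (g : ℕ → Pt κ → Ordinal.{u})
    (hg : ∀ n, x ∈ Z e C h (g n) (g (n + 1))) :
    LimPt (C (e x).1 (h x)) (⨆ n, g n (e x).1) ∧
    C (e x).1 (⨆ n, g n (e x).1) = C (e x).1 (h x) ∩ Set.Iio (⨆ n, g n (e x).1) ∧
    ∀ n, g n (e x).1 < ⨆ n, g n (e x).1 := by
  set ζ := ⨆ n, g n (e x).1 with hζ
  have hle : ∀ n, g n (e x).1 ≤ ζ := fun n => Ordinal.le_iSup (fun n => g n (e x).1) n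
  have hlt : ∀ n, g n (e x).1 < ζ := by
    intro n
    obtain ⟨ε, _, h1, h2⟩ := hg n
    exact (h1.trans_le h2).trans_le (hle _)
  have hlim : LimPt (C (e x).1 (h x)) ζ := by
    refine ⟨(bot_le.trans_lt (hlt 0)).ne', ?_⟩
    intro ξ hξ
    obtain ⟨n, hn⟩ := (Ordinal.lt_iSup_iff).1 hξ
    obtain ⟨ε, hε, h1, h2⟩ := hg n
    exact ⟨ε, hε, hn.trans h1, h2.trans_lt (hlt _)⟩
  refine ⟨hlim, ?_, hlt⟩
  have hζh : ζ ≤ h x := by
    apply Ordinal.iSup_le
    intro n
    obtain ⟨ε, hε, h1, _⟩ := hg n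
    exact (h1.trans ((S.sq x hx).sub _ (S.lt' hx) (S.lim x hx) _ hε)).le
  rcases hζh.lt_or_eq with h1 | h1
  · exact (S.sq x hx).coh _ (S.lt' hx) (S.lim x hx) _ h1 hlim
  · rw [h1]
    ext ε
    simp only [mem_inter_iff, mem_Iio]
    exact ⟨fun h2 => ⟨h2, (S.sq x hx).sub _ (S.lt' hx) (S.lim x hx) _ h2⟩, fun h2 => h2.1⟩

/-- all conditions decide the initial segments of the thread in the same way -/
lemma step2 (S : Sit U e F C l1 h) {g : Pt κ → Ordinal.{u}} (hg : GG g)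
    (B : Pt κ → Set Ordinal.{u} → Prop) {l l' : List (Set (Pt κ))} (hl : l1 <+: l)
    (hl' : l1 <+: l')
    (h1 : F l ⊆ {x | B (e x).1 (C (e x).1 (h x) ∩ Set.Iic (g (e x).1))})
    (h2 : F l' ⊆ {x | ¬ B (e x).1 (C (e x).1 (h x) ∩ Set.Iic (g (e x).1))}) : False := by
  let T := {p : List (Set (Pt κ)) × List (Set (Pt κ)) × (Pt κ → Ordinal.{u}) //
    l1 <+: p.1 ∧ l1 <+: p.2.1 ∧ GG p.2.2}
  have hnext : ∀ t : T, ∃ t' : T, t.1.1 <+: t'.1.1 ∧ t.1.2.1 <+: t'.1.2.1 ∧
      F t'.1.1 ⊆ Z e C h t.1.2.2 t'.1.2.2 ∧ F t'.1.2.1 ⊆ Z e C h t.1.2.2 t'.1.2.2 := by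
    rintro ⟨⟨m, m', f⟩, hm, hm', hf⟩
    simp only at hm hm' hf ⊢
    obtain ⟨n, hn, f1, hf1, hff1, hz1⟩ := S.step1 hm hf
    obtain ⟨n', hn', f2, hf2, hff2, hz2⟩ := S.step1 hm' hf1
    refine ⟨⟨⟨n, n', f2⟩, hm.trans hn, hm'.trans hn', hf2⟩, hn, hn', ?_, ?_⟩
    · intro x hx
      obtain ⟨ε, h3, h4, h5⟩ := hz1 hx
      exact ⟨ε, h3, h4, h5.trans (hff2 _)⟩
    · intro x hx
      obtain ⟨ε, h3, h4, h5⟩ := hz2 hx
      exact ⟨ε, h3, (hff1 _).trans_lt h4, h5⟩
  choose next hn1 hn2 hn3 hn4 using hnext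
  let m : ℕ → T := fun n => next^[n] ⟨(l, l', g), hl, hl', hg⟩
  have hm : ∀ n, m (n + 1) = next (m n) := fun n => Function.iterate_succ_apply' _ _ _
  have hm0 : m 0 = ⟨(l, l', g), hl, hl', hg⟩ := rfl
  have h3 := S.hF.win_seq S.hJ.down (fun n => (m n).1.1) (fun n => by rw [hm]; exact hn1 _)
  have h4 := S.hF.win_seq S.hJ.down (fun n => (m n).1.2.1) (fun n => by rw [hm]; exact hn2 _)
  obtain ⟨α, ⟨x, hx, hxα⟩, ⟨y, hy, hyα⟩⟩ :=
    Ultrafilter.nonempty_of_mem (Filter.inter_mem (pos' h3) (pos' h4))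
  have hx1 : x ∈ F l1 := S.hF.mono (m 0).2.1 (hx 0)
  have hy1 : y ∈ F l1 := S.hF.mono (m 0).2.2.1 (hy 0)
  obtain ⟨-, h5, h6⟩ := S.thread hx1 (fun n => (m n).1.2.2) (fun n => by
    have := hn3 (m n); rw [← hm] at this; exact this (hx (n + 1)))
  obtain ⟨-, h7, _⟩ := S.thread hy1 (fun n => (m n).1.2.2) (fun n => by
    have := hn4 (m n); rw [← hm] at this; exact this (hy (n + 1)))
  rw [hxα] at h5 h6
  rw [hyα] at h7
  have h8 : C α (h x) ∩ Set.Iic (g α) = C α (h y) ∩ Set.Iic (g α) := by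
    have h9 : g α < ⨆ n, (m n).1.2.2 α := h6 0
    have h10 : ∀ t, t ≤ g α → (t ∈ C α (h x) ↔ t ∈ C α (h y)) := by
      intro t ht
      have h11 := ht.trans_lt h9
      have e1 : t ∈ C α (⨆ n, (m n).1.2.2 α) ↔ t ∈ C α (h x) := by
        rw [h5]; exact ⟨fun h => h.1, fun h => ⟨h, h11⟩⟩
      have e2 : t ∈ C α (⨆ n, (m n).1.2.2 α) ↔ t ∈ C α (h y) := by
        rw [h7]; exact ⟨fun h => h.1, fun h => ⟨h, h11⟩⟩
      rw [← e1, e2]
    ext t
    simp only [mem_inter_iff, mem_Iic]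
    constructor
    · rintro ⟨h11, h12⟩; exact ⟨(h10 t h12).1 h11, h12⟩
    · rintro ⟨h11, h12⟩; exact ⟨(h10 t h12).2 h11, h12⟩
  have hb1 : B α (C α (h x) ∩ Set.Iic (g α)) := by
    have := h1 (hx 0); simp only [mem_ofPred_eq, hxα] at this; exact this
  have hb2 : ¬ B α (C α (h y) ∩ Set.Iic (g α)) := by
    have := h2 (hy 0); simp only [mem_ofPred_eq, hyα] at this; exact this
  rw [h8] at hb1
  exact hb2 hb1


/-- `η` is in the thread -/
def InT (e : Pt κ ≃ Pt κ × Pt κ) (F : List (Set (Pt κ)) → Set (Pt κ))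
    (C : Pt κ → Ordinal.{u} → Set Ordinal.{u}) (l1 : List (Set (Pt κ)))
    (h : Pt κ → Ordinal.{u}) (η : Pt κ → Ordinal.{u}) : Prop :=
  GG η ∧ ∀ l, l1 <+: l → ∃ l', l <+: l' ∧
    F l' ⊆ {x | η (e x).1 < h x ∧ LimPt (C (e x).1 (h x)) (η (e x).1)}

lemma step3 (S : Sit U e F C l1 h) {g : Pt κ → Ordinal.{u}} (hg : GG g) :
    ∃ η, InT e F C l1 h η ∧ ∀ α, g α < η α := by
  let T := {p : Pt κ → Ordinal.{u} // GG p}
  have hnext : ∀ t : T, ∃ t' : T, (∀ α, t.1 α ≤ t'.1 α) ∧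
      ∀ l, l1 <+: l → F (l ++ [Z e C h t.1 t'.1]) ⊆ Z e C h t.1 t'.1 := by
    rintro ⟨f, hf⟩
    obtain ⟨l', hl', f', hf', hff', hz⟩ := S.step1 (List.prefix_refl l1) hf
    refine ⟨⟨f', hf'⟩, hff', ?_⟩
    intro l hl
    rcases S.hF.cut l (Z e C h f f') with h1 | h1
    · exact h1
    · exfalso
      refine S.step2 hf' (fun α v => ∃ ε ∈ v, f α < ε) hl' (hl.trans (List.prefix_append _ _))
        (hz.trans ?_) (h1.trans ?_)
      · rintro x ⟨ε, h2, h3, h4⟩
        exact ⟨ε, ⟨h2, h4⟩, h3⟩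
      · rintro x hx ⟨ε, ⟨h2, h3⟩, h4⟩
        exact hx ⟨ε, h2, h4, h3⟩
  choose next hn1 hn2 using hnext
  let m : ℕ → T := fun n => next^[n] ⟨fun α => g α + 1, GG_add hg⟩
  have hm : ∀ n, m (n + 1) = next (m n) := fun n => Function.iterate_succ_apply' _ _ _
  have hm0 : m 0 = ⟨fun α => g α + 1, GG_add hg⟩ := rfl
  have hη : GG (fun α => ⨆ n, (m n).1 α) := fun α => sup_nat _ fun n => (m n).2 α
  refine ⟨fun α => ⨆ n, (m n).1 α, ⟨hη, ?_⟩, ?_⟩
  · intro l hl
    set l2 := l ++ [{x | (⨆ n, (m n).1 (e x).1) < h x}] with hl2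
    have h2 : F l2 ⊆ {x | (⨆ n, (m n).1 (e x).1) < h x} := S.above hl hη
    have hl12 : l1 <+: l2 := hl.trans (List.prefix_append _ _)
    rcases S.hF.cut l2 {x | LimPt (C (e x).1 (h x)) (⨆ n, (m n).1 (e x).1)} with h3 | h3
    · refine ⟨l2 ++ [{x | LimPt (C (e x).1 (h x)) (⨆ n, (m n).1 (e x).1)}], ?_, ?_⟩
      · exact (List.prefix_append _ _).trans (List.prefix_append _ _)
      · intro x hx
        exact ⟨h2 (S.hF.mono (List.prefix_append _ _) hx), h3 hx⟩
    · exfalso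
      set l3 := l2 ++ [{x | LimPt (C (e x).1 (h x)) (⨆ n, (m n).1 (e x).1)}] with hl3
      let L : ℕ → List (Set (Pt κ)) := fun n =>
        Nat.rec l3 (fun k lk => lk ++ [Z e C h (m k).1 (m (k + 1)).1]) n
      have hL0 : L 0 = l3 := rfl
      have hLs : ∀ n, L (n + 1) = L n ++ [Z e C h (m n).1 (m (n + 1)).1] := fun n => rfl
      have hL1 : ∀ n, L n <+: L (n + 1) := fun n => by rw [hLs]; exact List.prefix_append _ _
      have hl13 : l1 <+: l3 := hl12.trans (List.prefix_append _ _)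
      have hLl : ∀ n, l1 <+: L n := fun n => hl13.trans (prefix_seq hL1 (Nat.zero_le n))
      obtain ⟨x, hx⟩ := nonempty_of_notJ (S.hF.win_seq S.hJ.down L hL1)
      have hx1 : x ∈ F l1 := S.hF.mono (hLl 0) (hx 0)
      refine h3 (hx 0) (S.thread hx1 (fun n => (m n).1) ?_).1
      intro n
      have := hx (n + 1)
      rw [hLs, hm] at this
      rw [hm]
      exact hn2 (m n) _ (hLl n) this
  · intro α
    have h1 : (m 0).1 α ≤ ⨆ n, (m n).1 α := Ordinal.le_iSup (fun n => (m n).1 α) 0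
    exact (Order.lt_add_one_iff.2 le_rfl).trans_le h1

/-- the order type of the initial segment of the thread -/
noncomputable def tt (C : Pt κ → Ordinal.{u} → Set Ordinal.{u}) (η : Pt κ → Ordinal.{u})
    (α : Pt κ) : Ordinal.{u + 1} := typeLT (C α (η α))

lemma step4 (S : Sit U e F C l1 h) {η η' : Pt κ → Ordinal.{u}} (hη : InT e F C l1 h η)
    (hη' : InT e F C l1 h η') : {α | η α < η' α → tt C η α < tt C η' α} ∈ U := by
  obtain ⟨l, hl, h1⟩ := hη.2 l1 (List.prefix_refl _)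
  obtain ⟨l', hl', h2⟩ := hη'.2 l hl
  refine Filter.mem_of_superset (pos' (S.hF.notJ S.hJ.down l')) ?_
  rintro α ⟨x, hx, rfl⟩ hlt
  have hx0 := S.hF.mono hl' hx
  have hx1 := S.hF.mono hl hx0
  obtain ⟨h3, h4⟩ := h1 hx0
  obtain ⟨h5, h6⟩ := h2 hx
  have e1 := (S.sq x hx1).coh _ (S.lt' hx1) (S.lim x hx1) _ h3 h4
  have e2 := (S.sq x hx1).coh _ (S.lt' hx1) (S.lim x hx1) _ h5 h6
  obtain ⟨ε, hε, h7, h8⟩ := h6.2 _ hlt
  apply type_lt (ε := ε)
  · rw [e1, e2]
    exact fun t ht => ⟨ht.1, lt_trans ht.2 hlt⟩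
  · rw [e2]; exact ⟨hε, h8⟩
  · rw [e1]
    exact fun t ht => lt_trans ht.2 h7

lemma tt_le (S : Sit U e F C l1 h) {η : Pt κ → Ordinal.{u}} (hη : InT e F C l1 h η) :
    {α : Pt κ | tt C η α ≤ Ordinal.lift.{u + 1} α.1} ∈ U := by
  obtain ⟨l, hl, h1⟩ := hη.2 l1 (List.prefix_refl _)
  refine Filter.mem_of_superset (pos' (S.hF.notJ S.hJ.down l)) ?_
  rintro α ⟨x, hx, rfl⟩
  have hx1 := S.hF.mono hl hx
  obtain ⟨h3, h4⟩ := h1 hx
  refine ((S.sq x hx1).otp _ (h3.trans (S.lt' hx1)) h4.isSuccLimit).trans ?_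
  rw [Ordinal.lift_le]
  exact Cardinal.ord_card_le _

/-- the order type as a point of `κ` -/
lemma exists_code (S : Sit U e F C l1 h) {η : Pt κ → Ordinal.{u}} (hη : InT e F C l1 h η) :
    ∃ f : Pt κ → Pt κ, (∀ α, f α ≤ α) ∧ {α | tt C η α = Ordinal.lift.{u + 1} (f α).1} ∈ U := by
  classical
  have h1 : ∀ α : Pt κ, ∃ y : Pt κ, y ≤ α ∧ (tt C η α ≤ Ordinal.lift.{u + 1} α.1 →
      tt C η α = Ordinal.lift.{u + 1} y.1) := by
    intro α
    by_cases h2 : tt C η α ≤ Ordinal.lift.{u + 1} α.1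
    · obtain ⟨y, hy⟩ := Ordinal.mem_range_lift_of_le h2
      have h3 : y ≤ α.1 := by rwa [← hy, Ordinal.lift_le] at h2
      exact ⟨⟨y, h3.trans_lt α.2⟩, h3, fun _ => hy.symm⟩
    · exact ⟨α, le_rfl, fun h => absurd h h2⟩
  choose f hf1 hf2 using h1
  exact ⟨f, hf1, Filter.mem_of_superset (S.tt_le hη) fun α hα => hf2 α hα⟩

/-- `y` is the code of `η`: the constant value of the order type, or `⊤` if it is `α` -/
def Code (U : Ultrafilter (Pt κ)) (C : Pt κ → Ordinal.{u} → Set Ordinal.{u})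
    (η : Pt κ → Ordinal.{u}) (y : WithTop (Pt κ)) : Prop :=
  {α : Pt κ | tt C η α = Ordinal.lift.{u + 1} (WithTop.untopD α y).1} ∈ U

lemma has_code (hU : IsNormalMeasure κ U) (S : Sit U e F C l1 h) {η : Pt κ → Ordinal.{u}}
    (hη : InT e F C l1 h η) : ∃ y, Code U C η y := by
  obtain ⟨f, hf1, hf2⟩ := S.exists_code hη
  by_cases h1 : {α | f α < α} ∈ U
  · obtain ⟨y, hy⟩ := hU.normal f h1
    refine ⟨(y : WithTop (Pt κ)), ?_⟩
    refine Filter.mem_of_superset (Filter.inter_mem hf2 hy) ?_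
    rintro α ⟨h2, h3⟩
    simp only [mem_ofPred_eq] at h2 h3 ⊢
    rw [h2, h3]
    simp
  · rw [← Ultrafilter.compl_mem_iff_notMem] at h1
    refine ⟨⊤, ?_⟩
    refine Filter.mem_of_superset (Filter.inter_mem hf2 h1) ?_
    rintro α ⟨h2, h3⟩
    simp only [mem_ofPred_eq, mem_compl_iff, not_lt] at h2 h3 ⊢
    rw [h2, le_antisymm (hf1 α) h3]
    simp

lemma contra (hU : IsNormalMeasure κ U) (hκ : ℵ₀ ≤ κ) (S : Sit U e F C l1 h) : False := by
  classical
  let R : WithTop (Pt κ) → (Pt κ → Ordinal.{u}) := fun y =>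
    if h : ∃ η, InT e F C l1 h η ∧ Code U C η y then h.choose else fun _ => 0
  have hR : ∀ y, GG (R y) := by
    intro y
    simp only [R]
    split_ifs with h1
    · exact h1.choose_spec.1.1
    · exact GG_zero
  have hg : ∀ α : Pt κ, ∃ g < s α.1, ∀ i < α.1,
      (if h : i < κ.ord then R ((⟨i, h⟩ : Pt κ) : WithTop (Pt κ)) α else 0) ≤ g := by
    intro α
    apply sup_s le_rfl
    intro i hi
    rw [dif_pos (hi.trans α.2)]
    exact hR _ α
  choose g hg1 hg2 using hg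
  obtain ⟨η, hη, hη2⟩ := S.step3 (g := fun α => max (g α) (R ⊤ α))
    fun α => max_lt (hg1 α) (hR _ α)
  obtain ⟨y, hy⟩ := S.has_code hU hη
  have hex : ∃ η, InT e F C l1 h η ∧ Code U C η y := ⟨η, hη, hy⟩
  have hRy : R y = hex.choose := by simp only [R]; rw [dif_pos hex]
  have hR1 : InT e F C l1 h (R y) := by rw [hRy]; exact hex.choose_spec.1
  have hR2 : Code U C (R y) y := by rw [hRy]; exact hex.choose_spec.2
  have h1 : {α | R y α < η α} ∈ U := by
    induction y using WithTop.recTopCoe with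
    | top =>
      refine Filter.mem_of_superset Filter.univ_mem ?_
      intro α _
      exact (le_max_right _ _).trans_lt (hη2 α)
    | coe y =>
      refine Filter.mem_of_superset (final hU hκ y) ?_
      intro α hα
      have h2 := hg2 α y.1 hα
      rw [dif_pos (show y.1 < κ.ord from y.2)] at h2
      exact (h2.trans (le_max_left _ _)).trans_lt (hη2 α)
  obtain ⟨α, ⟨⟨h2, h3⟩, h4⟩, h5⟩ := Ultrafilter.nonempty_of_mem
    (Filter.inter_mem (Filter.inter_mem (Filter.inter_mem h1 (S.step4 hR1 hη)) hR2) hy)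
  have h6 := h3 h2
  simp only [mem_ofPred_eq] at h4 h5
  rw [h4, h5] at h6
  exact lt_irrefl _ h6

end Sit

end main

/-- **Theorem.** Let `κ` be an uncountable regular cardinal, `U` a normal measure on `κ`, and
suppose that `□_{|α|}` holds for `U`-almost all `α < κ`. Then the ideal of bounded subsets of `κ`
and another proper `<κ`-closed ideal `J` on `κ` containing it behave differently: for all limit
ordinals `γ < κ`, Choose has a winning strategy in `U(κ, bd_κ, γ)` but has no winning strategy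
in `U(κ, J, γ)`. -/
theorem main (κ : Cardinal.{u}) (hκ : ℵ₀ < κ) (hreg : κ.IsRegular) (U : Ultrafilter (Pt κ))
    (hU : IsNormalMeasure κ U) (hsq : {α : Pt κ | Square α.1.card} ∈ U) :
    IsIdeal κ {X | Bd κ X} ∧ ∃ J, IsIdeal κ J ∧ ∀ γ : Ordinal.{u}, IsSuccLimit γ → γ < κ.ord →
      ChooseWins κ {X | Bd κ X} γ ∧ ¬ ChooseWins κ J γ := by
  classical
  have hωκ : ω < κ.ord := by rw [← Cardinal.ord_aleph0]; exact Cardinal.ord_lt_ord.2 hκ
  have : Nonempty (Pt κ) := ⟨⟨ω, hωκ⟩⟩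
  have hbd : IsIdeal κ {X | Bd κ X} := by
    refine ⟨?_, ?_, fun X hX => hX, ?_⟩
    · rintro ⟨b, hb⟩
      exact lt_irrefl _ (hb b (mem_univ _))
    · rintro X ⟨b, hb⟩ Y hY
      exact ⟨b, fun x hx => hb x (hY hx)⟩
    · intro ν hν A hA
      choose! b hb using hA
      obtain ⟨g, hg, h⟩ := sup_bound hreg (ν := ν) (Cardinal.lt_ord.1 hν) (fun i => (b i).1)
        fun i _ => (b i).2
      refine ⟨⟨g + 1, (Cardinal.isSuccLimit_ord hκ.le).add_one_lt hg⟩, ?_⟩
      rintro x ⟨i, hi, hx⟩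
      have h1 : x.1 < (b i).1 := hb i hi x hx
      have h2 : x.1 < g + 1 := Order.lt_add_one_iff.2 (h1.le.trans (h i hi))
      exact h2
  refine ⟨hbd, ?_⟩
  have hcard : #(Pt κ × Pt κ) = #(Pt κ) := by
    rw [Cardinal.mk_prod, Cardinal.lift_id]
    apply Cardinal.mul_eq_self
    rw [Cardinal.mk_Iio_ordinal, Cardinal.card_ord]
    simpa using hκ.le
  obtain ⟨e⟩ := Cardinal.eq.1 hcard
  have hJ := JJ_ideal hU hκ hreg e.symm
  refine ⟨JJ U e.symm, hJ, ?_⟩
  intro γ hγ hγκ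
  constructor
  · refine ⟨⟨fun ξ c => decide ((c ξ).1 ∈ U), ?_⟩, ?_⟩
    · intro ξ c c' h
      rw [h ξ le_rfl]
    · intro c hc
      have h1 : ∀ ξ ≤ γ, (⟨fun ξ c => decide ((c ξ).1 ∈ U), by
          intro ξ c c' h; rw [h ξ le_rfl]⟩ : Strategy κ).current c ξ ∈ U := by
        intro ξ
        induction ξ using WellFoundedLT.induction with
        | _ ξ ih =>
          intro hξ
          apply hU.complete ξ (hξ.trans_lt hγκ)
          intro η hη
          have h2 := hc η (hη.trans_le hξ)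
          have h3 := ih η hη (hη.le.trans hξ)
          rw [← h2.1] at h3
          simp only [Strategy.pick, decide_eq_true_eq]
          split_ifs with h4
          · exact h4
          · exact (Ultrafilter.union_mem_iff.1 h3).resolve_left h4
      rintro ⟨b, hb⟩
      obtain ⟨x, hx1, hx2⟩ := Ultrafilter.nonempty_of_mem
        (Filter.inter_mem (h1 γ le_rfl) (final hU hκ.le b))
      exact lt_asymm (hb x hx1) hx2
  · rintro ⟨σ, hσ⟩
    have hF := finStrat σ hJ.down hγ hσ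
    choose! C hC using fun (α : Pt κ) (hα : Square α.1.card) => hα
    obtain ⟨l1, h, S⟩ := exists_sit (C := C) hJ hF (Filter.mem_of_superset hsq fun α hα => hC α hα)
      (Filter.mem_of_superset (final hU hκ.le ⟨ω, hωκ⟩) fun α hα =>
        (le_of_lt hα : (⟨ω, hωκ⟩ : Pt κ) ≤ α))
    exact S.contra hU hκ.le

end Pool.Agent.H40.Cut
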